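import Pool.Agent.H41.Wnc1

set_option autoImplicit false

open Set Bornology Pool.Agent.H41.Wnc
open scoped ENNReal NNReal

namespace Pool.Agent.Results.MP_4226b8_an.NotEquiv

lemma jb {M : Type} [CommCStarAlgebra M] [Nontrivial M] :
    IsJBTriple fun a b c : M => a * star b * c where
  cont := by fun_prop
  add₁ _ _ _ _ := by ring
  smul₁ _ _ _ _ := by simp
  add₂ _ _ _ _ := by rw [star_add]; ring
  smul₂ _ _ _ _ := by simp
  symm _ _ _ := by ring
  jordan _ _ _ _ _ := by simp only [star_mul, star_star]; ring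
  herm a := by
    let Φ : M →ₐ[ℂ] M →L[ℂ] M := AlgHom.ofLinearMap (ContinuousLinearMap.mul ℂ M).toLinearMap
      (by ext; simp) fun x y => by ext; simp [mul_assoc]
    have s : IsSelfAdjoint (a * star a) := .mul_star_self a
    refine ⟨Φ (a * star a), fun _ => rfl, fun t => ?_, fun z hz => ?_⟩
    · let := NormedAlgebra.restrictScalars ℚ ℂ M
      let := NormedAlgebra.restrictScalars ℚ ℂ (M →L[ℂ] M)
      rw [← map_smul, ← NormedSpace.map_exp Φ (ContinuousLinearMap.mul ℂ M).continuous]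
      refine (ContinuousLinearMap.opNorm_mul_apply ℂ M _).trans ?_
      have := CStarRing.norm_coe_unitary (selfAdjoint.expUnitary (t • (⟨_, s⟩ : selfAdjoint M)))
      rwa [mul_smul, Complex.coe_smul]
    · have h := AlgHom.spectrum_apply_subset Φ _ hz
      have e := s.mem_spectrum_eq_re h
      refine ⟨by rw [e]; simp, spectrum_star_mul_self_nonneg (b := star a) _ ?_⟩
      rw [star_star, ← spectrum.algebraMap_mem_iff ℂ]
      exact e ▸ h
  cube a := by
    have h := (IsSelfAdjoint.star_mul_self a).norm_mul_self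
    have h1 := norm_mul_le (star a) (a * star a * a)
    rw [show star a * (a * star a * a) = star a * a * (star a * a) by ring, h, norm_star,
      CStarRing.norm_star_mul_self] at h1
    refine le_antisymm ((norm_mul_le _ _).trans_eq (by rw [CStarRing.norm_self_mul_star]; ring)) ?_
    rcases (norm_nonneg a).eq_or_lt with e | e
    · simp [← e]
    · exact le_of_mul_le_mul_left (by linarith) e

lemma dual : Nonempty (lp (fun _ : ℕ => ℂ) ∞ ≃ₗᵢ[ℂ] StrongDual ℂ (lp (fun _ : ℕ => ℂ) 1)) := by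
  let Φ := lp.dualPairing (E := fun _ : ℕ => ℂ) (F := fun _ : ℕ => ℂ) ∞ 1
    (fun _ => ContinuousLinearMap.mul ℂ ℂ) (K := 1) fun _ => ContinuousLinearMap.opNorm_mul_le ..
  have e : ∀ x i, Φ x (lp.single 1 i 1) = x i := fun x i => by
    refine (tsum_eq_single i fun j hj => ?_).trans ?_
    · exact mul_eq_zero_of_right _ (lp.single_apply_ne (E := fun _ : ℕ => ℂ) _ _ _ hj)
    · exact (congrArg (x i * ·) (lp.single_apply_self (E := fun _ : ℕ => ℂ) _ _ _)).trans (mul_one _)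
  have b : ∀ (φ : StrongDual ℂ (lp (fun _ : ℕ => ℂ) 1)) i, ‖φ (lp.single 1 i 1)‖ ≤ ‖φ‖ := fun φ i => by
    simpa using φ.le_opNorm (lp.single 1 i 1)
  refine ⟨LinearIsometryEquiv.ofSurjective ⟨Φ.toLinearMap, fun x => le_antisymm
    ((Φ.le_of_opNorm_le (lp.norm_dualPairing ..) x).trans_eq (one_mul _))
    (lp.norm_le_of_forall_le (norm_nonneg _) fun i => e x i ▸ b _ i)⟩ fun φ => ?_⟩
  refine ⟨⟨fun i => φ (lp.single 1 i 1), memℓp_infty ⟨‖φ‖, forall_mem_range.2 (b φ)⟩⟩,
    lp.ext_continuousLinearMap (by simp) fun i => ContinuousLinearMap.ext_ring (e _ i)⟩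

theorem result : ∃ (M : Type) (_ : NormedAddCommGroup M) (_ : NormedSpace ℂ M) (_ : CompleteSpace M)
    (tp : M → M → M → M), IsJBTriple tp ∧
    (∃ (F : Type) (_ : NormedAddCommGroup F) (_ : NormedSpace ℂ F) (_ : CompleteSpace F),
      Nonempty (M ≃ₗᵢ[ℂ] StrongDual ℂ F)) ∧
    ∀ c : ℝ≥0, ∃ A : Set M, IsBounded A ∧ c * wk A < om A := by
  have k : ∀ n : ℕ, ∃ A : Set (lp (fun _ : ℕ => ℂ) ∞), IsBounded A ∧ wk A ≤ 1 ∧ n ≤ om A := fun n => by
    let e := Denumerable.ofNat (Finset ℕ)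
    have := gen (X := lp (fun _ : ℕ => ℂ) ∞) (fun t => lp.evalCLM ℂ _ ∞ t)
      (fun t => ContinuousLinearMap.opNorm_le_bound _ zero_le_one fun x =>
        (lp.norm_apply_le_norm (by simp) x t).trans_eq (one_mul _).symm)
      (fun x c h0 h => lp.norm_le_of_forall_le h0 h) (2 * n) (2 * n)
      (fun p q => ⟨fun t => if (e t).card ≤ 2 * n ∧ ∃ b ∈ e t, b ∈ Finset.Ioc p q then 1 else 0,
        memℓp_infty ⟨1, forall_mem_range.2 fun t => by split_ifs <;> simp⟩⟩)
      (fun p q t => by change ‖ite _ _ _‖ ≤ _; split_ifs <;> simp) (fun t => ?_) fun B hB => ?_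
    · simpa using this
    · by_cases h : (e t).card ≤ 2 * n
      · exact ⟨e t, h, fun p q h' => if_neg fun ⟨_, b, h1, h2⟩ => h' b h1 (by simpa using h2)⟩
      · exact ⟨∅, by simp, fun p q _ => if_neg fun h' => h h'.1⟩
    · obtain ⟨t, rfl⟩ := (Denumerable.eqv (Finset ℕ)).symm.surjective B
      exact ⟨t, fun p q => if_congr (and_iff_right hB) rfl rfl⟩
  have : Nontrivial (lp (fun _ : ℕ => ℂ) ∞) := ⟨1, 0, fun h => one_ne_zero (α := ℂ)
    (congrArg (fun x : lp (fun _ : ℕ => ℂ) ∞ => x 0) h)⟩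
  refine ⟨lp (fun _ : ℕ => ℂ) ∞, inferInstance, inferInstance, inferInstance, _, jb,
    ⟨_, inferInstance, inferInstance, inferInstance, dual⟩, fun c => ?_⟩
  obtain ⟨n, hn⟩ := exists_nat_gt c
  obtain ⟨A, h1, h2, h3⟩ := k n
  exact ⟨A, h1, ((mul_le_of_le_one_right' h2).trans_lt (by exact_mod_cast hn)).trans_le h3⟩

end Pool.Agent.Results.MP_4226b8_an.NotEquiv
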